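import Mathlib
import Pool.Agent.W917.Flip.CardCase

/-!
# MP_8fa3e4_lc: one cardinal preserving forcing, all the ideals at once

This is a stronger form of `Pool.Agent.Results.MP_8fa3e4_lc.CountableIdeal.result`: there the
forcing notion is allowed to depend on `χ`, and only `χ`, its successor and `κ` are asserted to
stay cardinals.
-/

namespace Pool.Agent.Results.MP_8fa3e4_lc.AllSizesAtOnce

open Cardinal Pool.Agent.H65R3.Forc Pool.Agent.W917.Flip

/-- For every cardinal `κ` there is one nonempty forcing notion `P`, every condition of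
which forces that all the infinite cardinals of the ground model are still cardinals, and that for
every infinite cardinal `χ < κ` of the ground model the quotient of the power set of `κ` by the
ideal of the sets having an injection into `χ` has a nontrivial automorphism. (There are such `χ`
exactly when `κ` is uncountable.) -/
theorem result (κ : Cardinal.{0}) :
    ∃ (P : Type) (_ : Preorder P), Nonempty P ∧ ∀ p : P,
      (∀ μ : Cardinal.{0}, ℵ₀ ≤ μ → p ∈ StaysCardinal P μ) ∧
      (∀ χ : Cardinal.{0}, ℵ₀ ≤ χ → χ < κ → p ∈ HasNontrivialAut (K κ) (InjInto (K χ))) := by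
  refine ⟨Pool.Agent.H631R2.Cond (K κ), inferInstance, ⟨⟨∅, by simp⟩⟩,
    fun p => ⟨fun μ hμ => staysCardinal hμ p, fun χ hχ hχκ => ?_⟩⟩
  have hSm : ∀ φ : K κ → Set (Pool.Agent.H631R2.Cond (K κ)),
      InjInto (K χ) φ = Cov (fun S => #S ≤ χ) φ := by
    intro φ
    have := injInto_eq (Y := K χ) (by rw [mk_K]; exact hχ) φ
    rwa [mk_K] at this
  exact mem_fex_of_mem (TT (K κ)) (down_fand
      (down_fand (down_fand (down_fall fun _ => down_fex _) (down_fall fun _ => down_fex _))
        (down_fall fun _ => down_fall fun _ => down_fall fun _ => down_fall fun _ =>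
          down_fimp _ _))
      (down_fnot _))
      ⟨isAut_TT (ideal_card hχ) hSm p,
        card_nontrivial hχ (by rw [mk_K]; exact not_le.2 hχκ) hSm p⟩

end Pool.Agent.Results.MP_8fa3e4_lc.AllSizesAtOnce
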